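import Mathlib
import Pool.Agent.H153R4.Chg
set_option autoImplicit false

/-!
Averages of extension operators over dilates, restricted type estimates: the blocks.
-/

namespace Pool.Agent.P8H20.LQ

open Complex MeasureTheory Set
open scoped ENNReal FourierTransform ComplexConjugate RealInnerProductSpace
open Pool.Agent.H153R4

variable {n : ℕ}

/-- bounded functions supported in `S` -/
structure BT (M : ℝ) (S : Set (E n)) (g : E n → ℂ) : Prop where
  bs : BS M g
  ms : MeasurableSet S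
  van : ∀ z, z ∉ S → g z = 0

lemma BT.le {M : ℝ} {S : Set (E n)} {g : E n → ℂ} (hg : BT M S g) (z : E n) :
    ‖g z‖ₑ ≤ ENNReal.ofReal M * S.indicator 1 z := by
  by_cases hz : z ∈ S
  · rw [indicator_of_mem hz, Pi.one_apply, mul_one, ← ofReal_norm]
    exact ENNReal.ofReal_le_ofReal (hg.bs.bd z)
  · rw [hg.van z hz]
    simp

lemma BT.l2 {M : ℝ} {S : Set (E n)} {g : E n → ℂ} (hg : BT M S g) :
    ∫⁻ z, ‖g z‖ₑ ^ 2 ≤ volume S * ENNReal.ofReal (M ^ 2) := by
  have h1 : ∀ z, ‖g z‖ₑ ^ 2 ≤ S.indicator (fun _ => ENNReal.ofReal (M ^ 2)) z := by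
    intro z
    by_cases hz : z ∈ S
    · rw [indicator_of_mem hz, ENNReal.ofReal_pow hg.bs.M0]
      gcongr
      rw [← ofReal_norm]
      exact ENNReal.ofReal_le_ofReal (hg.bs.bd z)
    · rw [indicator_of_notMem hz, hg.van z hz]
      simp
  refine (lintegral_mono h1).trans (le_of_eq ?_)
  rw [lintegral_indicator hg.ms, lintegral_const, Measure.restrict_apply_univ, mul_comm]

lemma BT.fbd {M : ℝ} {S : Set (E n)} {g : E n → ℂ} (hg : BT M S g) (s : Fin n → ℝ) (x : E n) :
    ‖𝓕 (ch s g) x‖ₑ ≤ volume S * ENNReal.ofReal M := by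
  rw [Real.fourier_eq]
  refine (enorm_integral_le_lintegral_enorm _).trans ?_
  have h1 : ∀ v : E n, ‖Real.fourierChar (-⟪v, x⟫) • ch s g v‖ₑ ≤ S.indicator (fun _ => ENNReal.ofReal M) v := by
    intro v
    rw [← ofReal_norm, Circle.norm_smul, ofReal_norm, ch_enorm]
    by_cases hz : v ∈ S
    · rw [indicator_of_mem hz, ← ofReal_norm]
      exact ENNReal.ofReal_le_ofReal (hg.bs.bd v)
    · rw [indicator_of_notMem hz, hg.van v hz]
      simp
  refine (lintegral_mono h1).trans (le_of_eq ?_)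
  rw [lintegral_indicator hg.ms, lintegral_const, Measure.restrict_apply_univ, mul_comm]

lemma up_l2 {M : ℝ} {ψ : E n → ℂ} (hψ : BS M ψ) :
    ∫⁻ z, ‖up ψ z‖ₑ ^ 2 ≤ ENNReal.ofReal (Real.exp (Real.pi * n) ^ 2) * ∫⁻ z, ‖ψ z‖ₑ ^ 2 := by
  rw [← lintegral_const_mul _ (hψ.meas.enorm.pow_const 2)]
  apply lintegral_mono
  intro z
  by_cases hz : z ∈ cube n
  · unfold up
    show ‖((Real.exp (Real.pi * ‖z‖ ^ 2) : ℝ) : ℂ) * ψ z‖ₑ ^ 2 ≤ _
    rw [enorm_mul, mul_pow, ENNReal.ofReal_pow (Real.exp_pos _).le]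
    refine mul_le_mul' (pow_le_pow_left' ?_ 2) le_rfl
    rw [← ofReal_norm, Complex.norm_real, Real.norm_of_nonneg (Real.exp_pos _).le]
    apply ENNReal.ofReal_le_ofReal
    rw [Real.exp_le_exp]
    exact mul_le_mul_of_nonneg_left (norm_sq_cube hz) Real.pi_pos.le
  · unfold up
    show ‖((Real.exp (Real.pi * ‖z‖ ^ 2) : ℝ) : ℂ) * ψ z‖ₑ ^ 2 ≤ _
    rw [hψ.supp z hz, mul_zero]
    simp

/-- Integrated local constancy. -/
theorem loc_int' {Y : Type*} [MeasurableSpace Y] (ν : Measure Y) [SFinite ν] (θ : Y → E n)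
    (hθ : Measurable θ) (K : ℝ≥0∞)
    (hK : ∀ z, ∫⁻ y, ENNReal.ofReal (gm (z - θ y)) ∂ν ≤ K) {M : ℝ} {ψ : E n → ℂ} (hψ : BS M ψ) :
    ∫⁻ y, ‖𝓕 ψ (θ y)‖ₑ ^ 2 ∂ν ≤
      K * (ENNReal.ofReal (Real.exp (Real.pi * n) ^ 2) * ∫⁻ z, ‖ψ z‖ₑ ^ 2) := by
  have hm : Measurable fun z : E n => ‖𝓕 (up ψ) z‖ₑ ^ 2 := (F_cont hψ.up).measurable.enorm.pow_const 2
  calc ∫⁻ y, ‖𝓕 ψ (θ y)‖ₑ ^ 2 ∂ν
      ≤ ∫⁻ y, (∫⁻ z, ENNReal.ofReal (gm (z - θ y)) * ‖𝓕 (up ψ) z‖ₑ ^ 2) ∂ν :=
        lintegral_mono fun y => loc hψ (θ y)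
    _ = ∫⁻ z, (∫⁻ y, ENNReal.ofReal (gm (z - θ y)) * ‖𝓕 (up ψ) z‖ₑ ^ 2 ∂ν) := by
        rw [lintegral_lintegral_swap]
        apply Measurable.aemeasurable
        have h1 : Measurable fun p : Y × E n => p.2 - θ p.1 :=
          measurable_snd.sub (hθ.comp measurable_fst)
        exact ((gm_meas.comp h1).ennreal_ofReal).mul (hm.comp measurable_snd)
    _ ≤ ∫⁻ z, K * ‖𝓕 (up ψ) z‖ₑ ^ 2 := by
        apply lintegral_mono
        intro z
        have h1 : Measurable fun y : Y => ENNReal.ofReal (gm (z - θ y)) :=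
          (gm_meas.comp (measurable_const.sub hθ)).ennreal_ofReal
        simp only
        rw [lintegral_mul_const _ h1]
        gcongr
        exact hK z
    _ = K * ∫⁻ z, ‖𝓕 (up ψ) z‖ₑ ^ 2 := lintegral_const_mul _ hm
    _ ≤ _ := by
        gcongr
        rw [plancherel _ hψ.up.int (hψ.up.memLp 2)]
        exact up_l2 hψ

/-- the overlap of `S` with its translate -/
noncomputable def ov (S : Set (E n)) (h : E n) : ℝ≥0∞ := ∫⁻ z, S.indicator 1 (z + h) * S.indicator 1 z

lemma kk_l2 {M : ℝ} {S : Set (E n)} {g : E n → ℂ} (hg : BT M S g) (h : E n) :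
    ∫⁻ z, ‖kk g h z‖ₑ ^ 2 ≤ ENNReal.ofReal (M ^ 4) * ov S h := by
  unfold ov
  rw [← lintegral_const_mul]
  · apply lintegral_mono
    intro z
    show ‖g (z + h) * conj (g z)‖ₑ ^ 2 ≤ _
    rw [enorm_mul]
    have hc : ‖conj (g z)‖ₑ = ‖g z‖ₑ := by
      rw [← ofReal_norm, ← ofReal_norm, RCLike.norm_conj]
    rw [hc]
    have h1 := hg.le (z + h)
    have h2 := hg.le z
    have e : ENNReal.ofReal (M ^ 4) = ENNReal.ofReal M ^ 2 * ENNReal.ofReal M ^ 2 := by
      rw [ENNReal.ofReal_pow hg.bs.M0]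
      ring
    have i1 : (S.indicator (1 : E n → ℝ≥0∞) (z + h)) ^ 2 = S.indicator 1 (z + h) := by
      by_cases hz : z + h ∈ S
      · rw [indicator_of_mem hz]; simp
      · rw [indicator_of_notMem hz]; simp
    have i2 : (S.indicator (1 : E n → ℝ≥0∞) z) ^ 2 = S.indicator 1 z := by
      by_cases hz : z ∈ S
      · rw [indicator_of_mem hz]; simp
      · rw [indicator_of_notMem hz]; simp
    calc (‖g (z + h)‖ₑ * ‖g z‖ₑ) ^ 2 ≤ ((ENNReal.ofReal M * S.indicator 1 (z + h)) * (ENNReal.ofReal M * S.indicator 1 z)) ^ 2 := by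
          gcongr
      _ = (ENNReal.ofReal M ^ 2 * ENNReal.ofReal M ^ 2) * ((S.indicator (1 : E n → ℝ≥0∞) (z + h)) ^ 2 * (S.indicator (1 : E n → ℝ≥0∞) z) ^ 2) := by ring
      _ = _ := by rw [i1, i2, e]
  · have hi : Measurable (S.indicator (1 : E n → ℝ≥0∞)) := measurable_one.indicator hg.ms
    exact (hi.comp (measurable_id.add_const h)).mul hi

/-- the exponent of the gain -/
noncomputable def gn (β : ℝ) : ℝ := (β / 2) / (1 - β / 2)

/-- the kernel -/
noncomputable def kr (β : ℝ) (h : E n) : ℝ≥0∞ := ∏ j, ENNReal.ofReal (|h j| ^ (β - 1))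

lemma kr_meas (β : ℝ) : Measurable (kr β : E n → ℝ≥0∞) := by
  unfold kr
  fun_prop

/-- the weighted overlap -/
theorem ov_kr (β : ℝ) (hβ0 : 0 < β) (hβ1 : β < 1) {S : Set (E n)} (hS : MeasurableSet S) :
    ∫⁻ h in Q2 n, kr β h * ov S h ≤
      (∫⁻ h in Q2 n, kr (β / 2) h) ^ (1 - gn β) * volume S ^ (1 + gn β) := by
  have hi : Measurable (S.indicator (1 : E n → ℝ≥0∞)) := measurable_one.indicator hS
  have hd : 0 < 1 - β / 2 := by linarith
  have hg0 : 0 < gn β := by unfold gn; positivity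
  have hg1 : gn β < 1 := by
    unfold gn
    rw [div_lt_one hd]
    linarith
  have hr : (0 : ℝ) < 1 - gn β := by linarith
  have e1 : 1 - gn β = (1 - β) / (1 - β / 2) := by
    unfold gn
    rw [eq_div_iff hd.ne', sub_mul, one_mul, div_mul_cancel₀ _ hd.ne']
    ring
  -- swap
  have h1 : ∫⁻ h in Q2 n, kr β h * ov S h = ∫⁻ z, S.indicator 1 z * ∫⁻ h in Q2 n, kr β h * S.indicator 1 (z + h) := by
    unfold ov
    have hj : Measurable fun p : E n × E n => S.indicator (1 : E n → ℝ≥0∞) (p.2 + p.1) * S.indicator 1 p.2 :=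
      (hi.comp (measurable_snd.add measurable_fst)).mul (hi.comp measurable_snd)
    calc ∫⁻ h in Q2 n, kr β h * ∫⁻ z, S.indicator 1 (z + h) * S.indicator 1 z
        = ∫⁻ h in Q2 n, ∫⁻ z, kr β h * (S.indicator 1 (z + h) * S.indicator 1 z) := by
          refine lintegral_congr fun h => ?_
          rw [lintegral_const_mul]
          exact hj.comp measurable_prodMk_left
      _ = ∫⁻ z, ∫⁻ h in Q2 n, kr β h * (S.indicator 1 (z + h) * S.indicator 1 z) := by
          rw [lintegral_lintegral_swap]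
          exact (((kr_meas β).comp measurable_fst).mul hj).aemeasurable
      _ = _ := by
          refine lintegral_congr fun z => ?_
          rw [← lintegral_const_mul]
          · refine lintegral_congr fun h => ?_
            ring
          · exact (kr_meas β).mul (hi.comp (measurable_const.add measurable_id))
  rw [h1]
  -- the inner integral
  have h2 : ∀ z : E n, ∫⁻ h in Q2 n, kr β h * S.indicator 1 (z + h) ≤
      (∫⁻ h in Q2 n, kr (β / 2) h) ^ (1 - gn β) * volume S ^ gn β := by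
    intro z
    have hH := ENNReal.lintegral_mul_norm_pow_le (μ := volume.restrict (Q2 n)) (f := fun h : E n => kr (β / 2) h)
      (g := fun h : E n => S.indicator (1 : E n → ℝ≥0∞) (z + h)) (kr_meas _).aemeasurable
      (hi.comp (measurable_const.add measurable_id)).aemeasurable (p := 1 - gn β) (q := gn β) hr.le hg0.le (by ring)
    have e2 : ∀ h : E n, kr (β / 2) h ^ (1 - gn β) * (S.indicator (1 : E n → ℝ≥0∞) (z + h)) ^ gn β =
        kr β h * S.indicator 1 (z + h) := by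
      intro h
      have a1 : kr (β / 2) h ^ (1 - gn β) = kr β h := by
        unfold kr
        rw [← ENNReal.prod_rpow_of_nonneg hr.le]
        refine Finset.prod_congr rfl fun j _ => ?_
        rw [ENNReal.ofReal_rpow_of_nonneg (by positivity) hr.le, ← Real.rpow_mul (abs_nonneg _)]
        congr 2
        rw [e1, mul_div_assoc', div_eq_iff hd.ne']
        ring
      have a2 : (S.indicator (1 : E n → ℝ≥0∞) (z + h)) ^ gn β = S.indicator 1 (z + h) := by
        by_cases hz : z + h ∈ S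
        · rw [indicator_of_mem hz]; simp
        · rw [indicator_of_notMem hz, ENNReal.zero_rpow_of_pos hg0]
      rw [a1, a2]
    simp only [e2] at hH
    refine hH.trans ?_
    gcongr
    refine (setLIntegral_le_lintegral _ _).trans (le_of_eq ?_)
    have e3 := lintegral_add_left_eq_self (μ := (volume : Measure (E n))) (S.indicator (1 : E n → ℝ≥0∞)) z
    rw [e3, lintegral_indicator hS]
    simp
  calc ∫⁻ z, S.indicator 1 z * ∫⁻ h in Q2 n, kr β h * S.indicator 1 (z + h)
      ≤ ∫⁻ z, S.indicator 1 z * ((∫⁻ h in Q2 n, kr (β / 2) h) ^ (1 - gn β) * volume S ^ gn β) := by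
        refine lintegral_mono fun z => ?_
        exact mul_le_mul' le_rfl (h2 z)
    _ = volume S * ((∫⁻ h in Q2 n, kr (β / 2) h) ^ (1 - gn β) * volume S ^ gn β) := by
        rw [lintegral_mul_const _ hi, lintegral_indicator hS]
        simp
    _ = _ := by
        have e4 : volume S ^ (1 + gn β) = volume S * volume S ^ gn β := by
          rw [ENNReal.rpow_add_of_nonneg _ _ zero_le_one hg0.le, ENNReal.rpow_one]
        rw [e4]
        ring

end Pool.Agent.P8H20.LQ
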