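import Mathlib
import Pool.Agent.P8H20.LQ.A
set_option autoImplicit false

/-!
Averages of extension operators over dilates, restricted type estimates: the main estimate.
-/

namespace Pool.Agent.P8H20.LQ

open Complex MeasureTheory Set
open scoped ENNReal FourierTransform ComplexConjugate RealInnerProductSpace
open Pool.Agent.H153R4

/-- constant -/
noncomputable def W4 (n : ℕ) (β : ℝ) : ℝ≥0∞ :=
  ENNReal.ofReal (Real.exp (Real.pi * n) ^ 2) * (∫⁻ h in Q2 n, kr (β / 2) h) ^ (1 - gn β)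

lemma W4_fin (n : ℕ) (β : ℝ) (hβ0 : 0 < β) (hβ1 : β < 1) : W4 n β < ⊤ := by
  have hd : 0 < 1 - β / 2 := by linarith
  have hg1 : gn β < 1 := by
    unfold gn
    rw [div_lt_one hd]
    linarith
  refine ENNReal.mul_lt_top ENNReal.ofReal_lt_top (ENNReal.rpow_lt_top_of_nonneg (by linarith) ?_)
  exact (J_fin n (β / 2) (by linarith)).ne

lemma block4' {m : ℕ} (μ : Measure (Fin m → ℝ)) [SFinite μ] (A α L T β : ℝ) (hA : 0 ≤ A)
    (hL : 1 ≤ L) (hT : 1 ≤ T)
    (hμ : ∀ (a : Fin m → ℝ) (r : ℝ), 0 < r → r ≤ 1 →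
      μ (Icc a (fun j => a j + r)) ≤ ENNReal.ofReal (A * r ^ α))
    (hβ0 : 0 < β) (hβ1 : β < 1) {M : ℝ} {S : Set (E (m + 1))} {g : E (m + 1) → ℂ} (hg : BT M S g) :
    ∫⁻ p, (∫⁻ x, ‖𝓕 (ch (sv p) g) x‖ₑ ^ 4)
        ∂((volume.restrict (ST T)).prod (μ.restrict (Icc (fun _ => -L) (fun _ => L)))) ≤
      ENNReal.ofReal (KT m A α L T β) * (W4 (m + 1) β * volume S ^ (1 + gn β)) * ENNReal.ofReal (M ^ 4) := by
  set ν := (volume.restrict (ST T)).prod (μ.restrict (Icc (fun _ : Fin m => -L) (fun _ => L)))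
    with hν
  simp only [four_ch hg.bs]
  have hm := (meas_FK (m := m) hg.bs.meas).enorm.pow_const 2
  rw [lintegral_lintegral_swap (by
    exact (hm.comp measurable_swap).aemeasurable)]
  have hae : ∀ᵐ h : E (m + 1), ∫⁻ p, ‖𝓕 (kk g h) (dd (sv p) h)‖ₑ ^ 2 ∂ν ≤
      (Q2 (m + 1)).indicator (fun h => (ENNReal.ofReal (KT m A α L T β) *
        ENNReal.ofReal (Real.exp (Real.pi * (m + 1 : ℕ)) ^ 2) * ENNReal.ofReal (M ^ 4)) * (kr β h * ov S h)) h := by
    filter_upwards [ae_ne_zero (m + 1)] with h hh0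
    by_cases hh : h ∈ Q2 (m + 1)
    · rw [indicator_of_mem hh]
      refine (loc_int' ν (fun p => dd (sv p) h) ?_ _ (fun z =>
        nu_bound μ A α L T β hA hL hT hμ hβ0.le hβ1.le h z hh hh0) (hg.bs.kk h)).trans ?_
      · unfold dd
        apply (PiLp.volume_preserving_toLp (Fin (m + 1))).measurable.comp
        rw [measurable_pi_iff]
        intro j
        have hs : Measurable fun p : ℝ × (Fin m → ℝ) => sv p j :=
          (measurable_pi_apply j).comp sv_meas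
        exact (measurable_const.mul hs).mul measurable_const
      · refine (mul_le_mul' le_rfl (mul_le_mul' le_rfl (kk_l2 hg h))).trans (le_of_eq ?_)
        unfold kr
        ring
    · rw [indicator_of_notMem hh]
      have h1 : ∃ j, 2 < |h j| := by
        by_contra hc
        push Not at hc
        exact hh hc
      have h2 : kk g h = 0 := by
        ext z
        exact kk_zero hg.bs h h1 z
      have h3 : ∀ y, 𝓕 (kk g h) y = 0 := by
        intro y
        rw [h2, Real.fourier_eq]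
        simp
      simp [h3]
  refine (lintegral_mono_ae hae).trans ?_
  rw [lintegral_indicator (Q2_meas _)]
  have hfin : ENNReal.ofReal (KT m A α L T β) *
        ENNReal.ofReal (Real.exp (Real.pi * (m + 1 : ℕ)) ^ 2) * ENNReal.ofReal (M ^ 4) ≠ ⊤ :=
    (ENNReal.mul_lt_top (ENNReal.mul_lt_top ENNReal.ofReal_lt_top ENNReal.ofReal_lt_top) ENNReal.ofReal_lt_top).ne
  rw [lintegral_const_mul' _ _ hfin]
  refine (mul_le_mul' le_rfl (ov_kr β hβ0 hβ1 hg.ms)).trans (le_of_eq ?_)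
  unfold W4
  ring

lemma block2' {m : ℕ} (μ : Measure (Fin m → ℝ)) [SFinite μ] (L : ℝ) (S : Set ℝ) {M : ℝ} {S' : Set (E (m + 1))}
    {g : E (m + 1) → ℂ} (hg : BT M S' g) :
    ∫⁻ p, (∫⁻ x, ‖𝓕 (ch (sv p) g) x‖ₑ ^ 2)
        ∂((volume.restrict S).prod (μ.restrict (Icc (fun _ => -L) (fun _ => L)))) ≤
      volume S * μ (Icc (fun _ => -L) (fun _ => L)) *
        (volume S' * ENNReal.ofReal (M ^ 2)) := by
  simp only [two_ch hg.bs]
  rw [lintegral_const]
  have : ((volume.restrict S).prod (μ.restrict (Icc (fun _ : Fin m => -L) (fun _ => L)))) univ =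
      volume S * μ (Icc (fun _ : Fin m => -L) (fun _ => L)) := by
    rw [← univ_prod_univ, Measure.prod_prod, Measure.restrict_apply_univ,
      Measure.restrict_apply_univ]
  rw [this, mul_comm]
  gcongr
  exact hg.l2

lemma block_q' {m : ℕ} (μ : Measure (Fin m → ℝ)) [SFinite μ] (A α L T β q : ℝ) (hA : 0 ≤ A)
    (hL : 1 ≤ L) (hT : 1 ≤ T) (hμ : Frost μ A α) (hβ0 : 0 < β) (hβ1 : β < 1)
    (hq2 : 2 ≤ q) (hq4 : q ≤ 4)
    {M : ℝ} {S : Set (E (m + 1))} {g : E (m + 1) → ℂ} (hg : BT M S g) :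
    II μ L q (ST T) g ≤
      ENNReal.ofReal (CA m A L q * T ^ ((4 - q) / 2 - (α - (m + 1) * β) * ((q - 2) / 2))) *
      ((W4 (m + 1) β) ^ ((q - 2) / 2) * volume S ^ (1 + gn β * ((q - 2) / 2))) *
        ENNReal.ofReal M ^ q := by
  have hT0 : 0 < T := by linarith
  have hM := hg.bs.M0
  have hN : 0 ≤ NL m L := by unfold NL; positivity
  have hc : 0 ≤ cL L := by unfold cL; positivity
  have hq0 : 0 ≤ (4 - q) / 2 := by linarith
  have hq0' : 0 ≤ (q - 2) / 2 := by linarith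
  have hd : 0 < 1 - β / 2 := by linarith
  have hg0 : 0 < gn β := by unfold gn; positivity
  have hKT : 0 ≤ KT m A α L T β := by unfold KT; positivity
  have h2 : ∫⁻ p, (∫⁻ x, ‖𝓕 (ch (sv p) g) x‖ₑ ^ 2)
      ∂((volume.restrict (ST T)).prod (μ.restrict (Icc (fun _ => -L) (fun _ => L)))) ≤
      ENNReal.ofReal (2 * T * (NL m L * A)) *
        (volume S * ENNReal.ofReal (M ^ 2)) := by
    refine (block2' μ L (ST T) hg).trans ?_
    rw [ENNReal.ofReal_mul (p := 2 * T) (by positivity)]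
    gcongr
    · exact ST_vol T hT0.le
    · exact hμ.mass L
  have h4 := block4' μ A α L T β hA hL hT hμ hβ0 hβ1 hg
  refine (II_interp μ L q hq2 hq4 (ST T) hg.bs.meas _ _ h2 h4).trans (le_of_eq ?_)
  rw [← const_eq m A α L q β T hA hL hT0]
  rw [ENNReal.mul_rpow_of_nonneg (ENNReal.ofReal (2 * T * (NL m L * A)))
      (volume S * ENNReal.ofReal (M ^ 2)) hq0,
    ENNReal.mul_rpow_of_nonneg (volume S) (ENNReal.ofReal (M ^ 2)) hq0,
    ENNReal.mul_rpow_of_nonneg (ENNReal.ofReal (KT m A α L T β) * (W4 (m + 1) β * volume S ^ (1 + gn β)))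
      (ENNReal.ofReal (M ^ 4)) hq0',
    ENNReal.mul_rpow_of_nonneg (ENNReal.ofReal (KT m A α L T β)) (W4 (m + 1) β * volume S ^ (1 + gn β)) hq0',
    ENNReal.mul_rpow_of_nonneg (W4 (m + 1) β) (volume S ^ (1 + gn β)) hq0',
    ENNReal.ofReal_mul (p := (2 * T * (NL m L * A)) ^ ((4 - q) / 2)) (by positivity),
    ENNReal.ofReal_rpow_of_nonneg (by positivity) hq0,
    ENNReal.ofReal_rpow_of_nonneg hKT hq0']
  have e3 : ENNReal.ofReal (M ^ 2) ^ ((4 - q) / 2) * ENNReal.ofReal (M ^ 4) ^ ((q - 2) / 2) =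
      ENNReal.ofReal M ^ q := by
    rw [ENNReal.ofReal_pow hM, ENNReal.ofReal_pow hM, ← ENNReal.rpow_natCast,
      ← ENNReal.rpow_natCast, ← ENNReal.rpow_mul, ← ENNReal.rpow_mul,
      ← ENNReal.rpow_add_of_nonneg _ _ (by push_cast; linarith) (by push_cast; linarith)]
    congr 1
    push_cast
    ring
  have e4 : volume S ^ ((4 - q) / 2) * (volume S ^ (1 + gn β)) ^ ((q - 2) / 2) =
      volume S ^ (1 + gn β * ((q - 2) / 2)) := by
    rw [← ENNReal.rpow_mul, ← ENNReal.rpow_add_of_nonneg _ _ hq0 (by positivity)]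
    congr 1
    ring
  rw [← e3, ← e4]
  generalize ENNReal.ofReal (M ^ 2) ^ ((4 - q) / 2) = x1
  generalize ENNReal.ofReal (M ^ 4) ^ ((q - 2) / 2) = x2
  generalize ENNReal.ofReal ((2 * T * (NL m L * A)) ^ ((4 - q) / 2)) = x3
  generalize ENNReal.ofReal (KT m A α L T β ^ ((q - 2) / 2)) = x4
  generalize volume S ^ ((4 - q) / 2) = x5
  generalize (volume S ^ (1 + gn β)) ^ ((q - 2) / 2) = x7
  generalize W4 (m + 1) β ^ ((q - 2) / 2) = x6
  ring

lemma choose_beta' (m : ℕ) (α q : ℝ) (hα : 0 < α) (hq : 2 + 2 / (1 + α) < q) :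
    ∃ β : ℝ, 0 < β ∧ β ≤ 1 / 2 ∧ (4 - q) / 2 - (α - (m + 1) * β) * ((q - 2) / 2) < 0 := by
  obtain ⟨β, h0, h1, h2⟩ := choose_beta m α q hα hq
  have hq2 : 2 < q := by
    have : 0 < 2 / (1 + α) := by positivity
    linarith
  refine ⟨β / 2, by linarith, by linarith, ?_⟩
  have h3 : (m + 1 : ℝ) * (β / 2) ≤ (m + 1) * β := by
    apply mul_le_mul_of_nonneg_left (by linarith) (by positivity)
  nlinarith [h3]

lemma pow_bd' {n : ℕ} {M : ℝ} {S : Set (E n)} {g : E n → ℂ} (hg : BT M S g) (q q0 : ℝ) (hq0 : 0 ≤ q0)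
    (hq : q0 ≤ q) (s : Fin n → ℝ) (x : E n) :
    ‖𝓕 (ch s g) x‖ₑ ^ q ≤
      (volume S * ENNReal.ofReal M) ^ (q - q0) * ‖𝓕 (ch s g) x‖ₑ ^ q0 := by
  have h1 := hg.fbd s x
  have h2 : q - q0 + q0 = q := by ring
  have h3 : 0 ≤ q - q0 := by linarith
  generalize ‖𝓕 (ch s g) x‖ₑ = y at *
  calc y ^ q = y ^ (q - q0) * y ^ q0 := by
        rw [← ENNReal.rpow_add_of_nonneg _ _ h3 hq0, h2]
    _ ≤ _ := mul_le_mul' (ENNReal.rpow_le_rpow h1 h3) le_rfl

lemma II_mono_q' {m : ℕ} (μ : Measure (Fin m → ℝ)) (L q q0 : ℝ) (hq0 : 0 ≤ q0)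
    (hq : q0 ≤ q) (S : Set ℝ) {M : ℝ} {S' : Set (E (m + 1))} {g : E (m + 1) → ℂ} (hg : BT M S' g) :
    II μ L q S g ≤ (volume S' * ENNReal.ofReal M) ^ (q - q0) * II μ L q0 S g := by
  have hG : ∀ p : ℝ × (Fin m → ℝ), ∫⁻ x, ‖𝓕 (ch (sv p) g) x‖ₑ ^ q ≤
      (volume S' * ENNReal.ofReal M) ^ (q - q0) *
        ∫⁻ x, ‖𝓕 (ch (sv p) g) x‖ₑ ^ q0 := by
    intro p
    have hm : Measurable fun x : E (m + 1) => ‖𝓕 (ch (sv p) g) x‖ₑ ^ q0 :=
      (F_cont (hg.bs.ch (sv p))).measurable.enorm.pow_const q0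
    rw [← lintegral_const_mul _ hm]
    exact lintegral_mono fun x => pow_bd' hg q q0 hq0 hq (sv p) x
  unfold II
  exact (lintegral_mono hG).trans (le_of_eq (lintegral_const_mul _ (G_meas q0 hg.bs.meas)))

lemma BT.vol {n : ℕ} {M : ℝ} {S : Set (E n)} {g : E n → ℂ} (hg : BT M S g) :
    BT M (S ∩ cube n) g where
  bs := hg.bs
  ms := hg.ms.inter (cube_meas n)
  van z hz := by
    by_cases h : z ∈ S
    · exact hg.bs.supp z (fun h' => hz ⟨h, h'⟩)
    · exact hg.van z h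

theorem rt_low (m : ℕ) (α q : ℝ) (hα : 0 < α) (hq : 2 + 2 / (1 + α) < q) (hq4 : q ≤ 4)
    (L A : ℝ) (hL : 1 ≤ L) (hA : 0 ≤ A) :
    ∃ κ : ℝ, 0 < κ ∧ ∃ C : ℝ≥0∞, C < ⊤ ∧ ∀ μ : Measure (Fin m → ℝ), Frost μ A α →
      ∀ (M : ℝ) (S : Set (E (m + 1))) (g : E (m + 1) → ℂ), BT M S g → S ⊆ cube (m + 1) →
        II μ L q univ g ≤ C * (volume S ^ (1 + κ) * ENNReal.ofReal M ^ q) := by
  obtain ⟨β, hβ0, hβ1, hβ⟩ := choose_beta' m α q hα hq
  have hq2' : 2 < q := by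
    have : 0 < 2 / (1 + α) := by positivity
    linarith
  have hq2 : 2 ≤ q := hq2'.le
  have hd : 0 < 1 - β / 2 := by linarith
  have hg0 : 0 < gn β := by unfold gn; positivity
  have hg1 : gn β ≤ 1 := by
    unfold gn
    rw [div_le_one hd]
    linarith
  set e : ℝ := (4 - q) / 2 - (α - (m + 1) * β) * ((q - 2) / 2) with he
  set V : ℝ≥0∞ := volume (cube (m + 1)) with hV
  have hVf : V < ⊤ := cube_vol (m + 1)
  set κ : ℝ := gn β * ((q - 2) / 2) with hκ
  have hκ0 : 0 < κ := by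
    rw [hκ]
    have : 0 < (q - 2) / 2 := by linarith
    positivity
  have hκq : κ ≤ q - 2 := by
    rw [hκ]
    have h1 : gn β * ((q - 2) / 2) ≤ 1 * ((q - 2) / 2) := by
      apply mul_le_mul_of_nonneg_right hg1
      linarith
    linarith
  set W : ℝ≥0∞ := (W4 (m + 1) β) ^ ((q - 2) / 2) with hW
  have hWf : W < ⊤ := ENNReal.rpow_lt_top_of_nonneg (by linarith) (W4_fin (m + 1) β hβ0 (by linarith)).ne
  set x : ℝ≥0∞ := ENNReal.ofReal ((2 : ℝ) ^ e) with hx
  have hx1 : x < 1 := by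
    rw [hx, ENNReal.ofReal_lt_one]
    exact Real.rpow_lt_one_of_one_lt_of_neg (by norm_num) hβ
  have hCA : 0 ≤ CA m A L q := by
    unfold CA cL NL
    positivity
  have hsum : ∑' j : ℕ, ENNReal.ofReal (CA m A L q * ((2 : ℝ) ^ j) ^ e) =
      ENNReal.ofReal (CA m A L q) * (1 - x)⁻¹ := by
    rw [← ENNReal.tsum_geometric, ← ENNReal.tsum_mul_left]
    congr 1
    ext j
    rw [ENNReal.ofReal_mul hCA, hx, ← ENNReal.ofReal_pow (by positivity)]
    congr 2
    rw [← Real.rpow_natCast, ← Real.rpow_mul (by norm_num), mul_comm, Real.rpow_mul (by norm_num),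
      Real.rpow_natCast]
  refine ⟨κ, hκ0, V ^ (q - 2 - κ) * (ENNReal.ofReal 2 * ENNReal.ofReal (NL m L * A)) +
    ENNReal.ofReal (CA m A L q) * (1 - x)⁻¹ * W, ?_, ?_⟩
  · apply ENNReal.add_lt_top.2 ⟨?_, ?_⟩
    · exact ENNReal.mul_lt_top (ENNReal.rpow_lt_top_of_nonneg (by linarith) hVf.ne)
        (ENNReal.mul_lt_top ENNReal.ofReal_lt_top ENNReal.ofReal_lt_top)
    · refine ENNReal.mul_lt_top (ENNReal.mul_lt_top ENNReal.ofReal_lt_top ?_) hWf
      rw [ENNReal.inv_lt_top]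
      exact tsub_pos_of_lt hx1
  intro μ hμ M S g hg hSc
  have := hμ.locfin
  have hM := hg.bs.M0
  have hSV : volume S ≤ V := measure_mono hSc
  refine (II_univ μ L q hg.bs.meas).trans ?_
  rw [add_mul]
  apply add_le_add
  · refine (II_mono_q' μ L q 2 (by norm_num) hq2 (Icc (-1) 1) hg).trans ?_
    have h2 : II μ L 2 (Icc (-1) 1) g ≤ ENNReal.ofReal 2 * ENNReal.ofReal (NL m L * A) *
        (volume S * ENNReal.ofReal (M ^ 2)) := by
      have h3 := block2' μ L (Icc (-1) 1) hg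
      have h4 : II μ L 2 (Icc (-1) 1) g = ∫⁻ p, (∫⁻ x, ‖𝓕 (ch (sv p) g) x‖ₑ ^ 2)
        ∂((volume.restrict (Icc (-1) 1)).prod (μ.restrict (Icc (fun _ => -L) (fun _ => L)))) := by
        unfold II
        simp only [ENNReal.rpow_ofNat]
      rw [h4]
      refine h3.trans ?_
      gcongr
      · rw [Real.volume_Icc]
        norm_num
      · exact hμ.mass L
    refine (mul_le_mul' le_rfl h2).trans ?_
    rw [ENNReal.mul_rpow_of_nonneg _ _ (by linarith : (0 : ℝ) ≤ q - 2)]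
    have e3 : ENNReal.ofReal M ^ (q - 2) * ENNReal.ofReal (M ^ 2) = ENNReal.ofReal M ^ q := by
      rw [ENNReal.ofReal_pow hM, ← ENNReal.rpow_natCast,
        ← ENNReal.rpow_add_of_nonneg _ _ (by linarith) (by norm_num)]
      congr 1
      push_cast
      ring
    have e5 : volume S ^ (q - 2) * volume S ≤ V ^ (q - 2 - κ) * volume S ^ (1 + κ) := by
      have e6 : volume S ^ (q - 2) * volume S = volume S ^ (q - 2 - κ) * volume S ^ (1 + κ) := by
        rw [← ENNReal.rpow_add_of_nonneg _ _ (by linarith) (by linarith)]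
        nth_rewrite 2 [← ENNReal.rpow_one (volume S)]
        rw [← ENNReal.rpow_add_of_nonneg _ _ (by linarith) (by norm_num)]
        congr 1
        ring
      rw [e6]
      exact mul_le_mul' (ENNReal.rpow_le_rpow hSV (by linarith)) le_rfl
    rw [← e3]
    calc volume S ^ (q - 2) * ENNReal.ofReal M ^ (q - 2) *
          (ENNReal.ofReal 2 * ENNReal.ofReal (NL m L * A) * (volume S * ENNReal.ofReal (M ^ 2)))
        = (volume S ^ (q - 2) * volume S) * (ENNReal.ofReal 2 * ENNReal.ofReal (NL m L * A) *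
            (ENNReal.ofReal M ^ (q - 2) * ENNReal.ofReal (M ^ 2))) := by ring
      _ ≤ (V ^ (q - 2 - κ) * volume S ^ (1 + κ)) * (ENNReal.ofReal 2 * ENNReal.ofReal (NL m L * A) *
            (ENNReal.ofReal M ^ (q - 2) * ENNReal.ofReal (M ^ 2))) := mul_le_mul' e5 le_rfl
      _ = _ := by ring
  · rw [← hsum, ← ENNReal.tsum_mul_right, ← ENNReal.tsum_mul_right]
    apply ENNReal.tsum_le_tsum
    intro j
    refine (block_q' μ A α L (2 ^ j) β q hA hL (one_le_pow₀ (by norm_num)) hμ hβ0 (by linarith) hq2 hq4 hg).trans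
      (le_of_eq ?_)
    ring

theorem rt_all (m : ℕ) (α q : ℝ) (hα : 0 < α) (hq : 2 + 2 / (1 + α) < q)
    (L A : ℝ) (hL : 1 ≤ L) (hA : 0 ≤ A) :
    ∃ κ : ℝ, 0 < κ ∧ ∃ C : ℝ≥0∞, C < ⊤ ∧ ∀ μ : Measure (Fin m → ℝ), Frost μ A α →
      ∀ (M : ℝ) (S : Set (E (m + 1))) (g : E (m + 1) → ℂ), BT M S g → S ⊆ cube (m + 1) →
        II μ L q univ g ≤ C * (volume S ^ (1 + κ) * ENNReal.ofReal M ^ q) := by
  rcases le_or_gt q 4 with hq4 | hq4
  · exact rt_low m α q hα hq hq4 L A hL hA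
  · have h4 : 2 + 2 / (1 + α) < 4 := by
      have h1 : 0 < 1 + α := by linarith
      have : 2 / (1 + α) < 2 := by
        rw [div_lt_iff₀ h1]
        linarith
      linarith
    obtain ⟨κ, hκ, C, hC, h⟩ := rt_low m α 4 hα h4 le_rfl L A hL hA
    refine ⟨κ, hκ, (volume (cube (m + 1))) ^ (q - 4) * C, ENNReal.mul_lt_top
      (ENNReal.rpow_lt_top_of_nonneg (by linarith) (cube_vol _).ne) hC, ?_⟩
    intro μ hμ M S g hg hSc
    have := hμ.locfin
    refine (II_mono_q' μ L q 4 (by norm_num) hq4.le univ hg).trans ?_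
    refine (mul_le_mul' le_rfl (h μ hμ M S g hg hSc)).trans ?_
    rw [ENNReal.mul_rpow_of_nonneg _ _ (by linarith : (0 : ℝ) ≤ q - 4)]
    have e3 : ENNReal.ofReal M ^ (q - 4) * ENNReal.ofReal M ^ (4 : ℝ) = ENNReal.ofReal M ^ q := by
      rw [← ENNReal.rpow_add_of_nonneg _ _ (by linarith) (by norm_num)]
      congr 1
      ring
    rw [← e3]
    calc volume S ^ (q - 4) * ENNReal.ofReal M ^ (q - 4) * (C * (volume S ^ (1 + κ) * ENNReal.ofReal M ^ (4 : ℝ)))
        = volume S ^ (q - 4) * (C * (volume S ^ (1 + κ) * (ENNReal.ofReal M ^ (q - 4) * ENNReal.ofReal M ^ (4 : ℝ)))) := by ring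
      _ ≤ (volume (cube (m + 1))) ^ (q - 4) * (C * (volume S ^ (1 + κ) * (ENNReal.ofReal M ^ (q - 4) * ENNReal.ofReal M ^ (4 : ℝ)))) :=
          mul_le_mul' (ENNReal.rpow_le_rpow (measure_mono hSc) (by linarith)) le_rfl
      _ = _ := by ring

end Pool.Agent.P8H20.LQ
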