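import Mathlib
import Pool.Agent.P8H20.LQ.B
set_option autoImplicit false

/-!
Averages of extension operators over dilates: from level sets to all functions.
-/

namespace Pool.Agent.P8H20.LQ

open Complex MeasureTheory Set
open scoped ENNReal FourierTransform ComplexConjugate RealInnerProductSpace
open Pool.Agent.H153R4

/-- weighted Jensen inequality for series -/
theorem jensen_tsum (q : ℝ) (hq : 1 < q) (b c : ℕ → ℝ≥0∞) (h0 : ∀ k, c k ≠ 0)
    (h1 : ∀ k, c k ≠ ∞) :
    (∑' k, b k) ^ q ≤ (∑' k, c k) ^ (q - 1) * ∑' k, c k ^ (1 - q) * b k ^ q := by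
  have hq0 : 0 < q := by linarith
  have hq1 : 0 < q - 1 := by linarith
  have h := ENNReal.lintegral_mul_le_Lp_mul_Lq (Measure.count : Measure ℕ) (p := q / (q - 1))
    (q := q)
    (by
      rw [Real.holderConjugate_iff]
      refine ⟨?_, ?_⟩
      · rw [lt_div_iff₀ hq1]; linarith
      · field_simp
        ring) (f := fun k => c k ^ ((q - 1) / q)) (g := fun k => c k ^ (-((q - 1) / q)) * b k)
    (measurable_from_nat).aemeasurable (measurable_from_nat).aemeasurable
  rw [lintegral_count, lintegral_count, lintegral_count] at h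
  have e1 : ∀ k, ((fun k => c k ^ ((q - 1) / q)) * fun k => c k ^ (-((q - 1) / q)) * b k) k =
      b k := by
    intro k
    simp only [Pi.mul_apply]
    rw [← mul_assoc, ← ENNReal.rpow_add _ _ (h0 k) (h1 k), add_neg_cancel, ENNReal.rpow_zero,
      one_mul]
  have e2 : ∀ k, (c k ^ ((q - 1) / q)) ^ (q / (q - 1)) = c k := by
    intro k
    rw [← ENNReal.rpow_mul]
    have : (q - 1) / q * (q / (q - 1)) = 1 := by field_simp
    rw [this, ENNReal.rpow_one]
  have e3 : ∀ k, (c k ^ (-((q - 1) / q)) * b k) ^ q = c k ^ (1 - q) * b k ^ q := by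
    intro k
    rw [ENNReal.mul_rpow_of_nonneg _ _ hq0.le, ← ENNReal.rpow_mul]
    congr 2
    field_simp
    ring
  simp_rw [e1, e2, e3] at h
  calc (∑' k, b k) ^ q ≤ ((∑' k, c k) ^ (1 / (q / (q - 1))) *
        (∑' k, c k ^ (1 - q) * b k ^ q) ^ (1 / q)) ^ q := by gcongr
    _ = (∑' k, c k) ^ (q - 1) * ∑' k, c k ^ (1 - q) * b k ^ q := by
      rw [ENNReal.mul_rpow_of_nonneg _ _ hq0.le, ← ENNReal.rpow_mul, ← ENNReal.rpow_mul]
      have a1 : 1 / (q / (q - 1)) * q = q - 1 := by field_simp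
      have a2 : 1 / q * q = 1 := by field_simp
      rw [a1, a2, ENNReal.rpow_one]


lemma II_prod {m : ℕ} (μ : Measure (Fin m → ℝ)) [SFinite μ] (L q : ℝ) (S : Set ℝ) {g : E (m + 1) → ℂ} (hg : Measurable g) :
    II μ L q S g = ∫⁻ w, ‖𝓕 (ch (sv w.1) g) w.2‖ₑ ^ q
      ∂(((volume.restrict S).prod (μ.restrict (Icc (fun _ => -L) (fun _ => L)))).prod (volume : Measure (E (m + 1)))) := by
  have hm := (meas_Fch (m := m) hg).enorm
  unfold II
  rw [lintegral_prod _ (hm.pow_const q).aemeasurable]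

/-- the level sets -/
def Lv {n : ℕ} (g : E n → ℂ) (lam : ℝ) (k : ℕ) : Set (E n) :=
  {z | z ∈ cube n ∧ (k = 0 ∨ lam * 2 ^ k ≤ ‖g z‖) ∧ ‖g z‖ < lam * 2 ^ (k + 1)}

lemma Lv_meas {n : ℕ} {g : E n → ℂ} (hg : Measurable g) (lam : ℝ) (k : ℕ) : MeasurableSet (Lv g lam k) := by
  unfold Lv
  have h1 : MeasurableSet {z : E n | k = 0 ∨ lam * 2 ^ k ≤ ‖g z‖} := by
    by_cases hk : k = 0
    · simp [hk]
    · simp only [hk, false_or]
      exact measurableSet_le measurable_const hg.norm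
  exact (cube_meas n).inter (h1.inter (measurableSet_lt hg.norm measurable_const))

lemma Lv_sub {n : ℕ} (g : E n → ℂ) (lam : ℝ) (k : ℕ) : Lv g lam k ⊆ cube n := fun _ h => h.1

lemma Lv_disj {n : ℕ} (g : E n → ℂ) {lam : ℝ} (hl : 0 < lam) : Pairwise (Function.onFun Disjoint (Lv g lam)) := by
  have key : ∀ i j : ℕ, i < j → Disjoint (Lv g lam i) (Lv g lam j) := by
    intro i j hij
    rw [Set.disjoint_left]
    rintro z ⟨_, _, h2⟩ ⟨_, h3, _⟩
    have h4 : lam * 2 ^ j ≤ ‖g z‖ := by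
      rcases h3 with h | h
      · omega
      · exact h
    have h5 : (2 : ℝ) ^ (i + 1) ≤ 2 ^ j := pow_le_pow_right₀ (by norm_num) hij
    nlinarith [mul_le_mul_of_nonneg_left h5 hl.le]
  intro i j hij
  rcases lt_or_gt_of_ne hij with h | h
  · exact key i j h
  · exact (key j i h).symm

lemma Lv_union {n : ℕ} (g : E n → ℂ) {lam : ℝ} (hl : 0 < lam) : ⋃ k, Lv g lam k = cube n := by
  apply Set.Subset.antisymm
  · exact iUnion_subset fun k => Lv_sub g lam k
  · intro z hz
    rw [mem_iUnion]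
    by_cases h : ‖g z‖ < lam * 2 ^ (0 + 1)
    · exact ⟨0, hz, Or.inl rfl, h⟩
    · push Not at h
      have h1 : 1 ≤ ‖g z‖ / lam := by
        rw [le_div_iff₀ hl]
        norm_num at h
        linarith
      obtain ⟨k, h2, h3⟩ := exists_nat_pow_near h1 (by norm_num : (1 : ℝ) < 2)
      rw [le_div_iff₀ hl] at h2
      rw [div_lt_iff₀ hl] at h3
      refine ⟨k, hz, Or.inr (by linarith), by linarith⟩

/-- the pieces -/
noncomputable def pc {n : ℕ} (g : E n → ℂ) (lam : ℝ) (k : ℕ) : E n → ℂ := (Lv g lam k).indicator g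

lemma pc_bt {n : ℕ} {g : E n → ℂ} (hg : Measurable g) {lam : ℝ} (hl : 0 < lam) (k : ℕ) :
    BT (lam * 2 ^ (k + 1)) (Lv g lam k) (pc g lam k) where
  bs := {
    meas := hg.indicator (Lv_meas hg lam k)
    bd := by
      intro z
      unfold pc
      by_cases hz : z ∈ Lv g lam k
      · rw [indicator_of_mem hz]
        exact hz.2.2.le
      · rw [indicator_of_notMem hz, norm_zero]
        positivity
    supp := by
      intro z hz
      unfold pc
      exact indicator_of_notMem (fun h => hz h.1) _ }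
  ms := Lv_meas hg lam k
  van := by
    intro z hz
    exact indicator_of_notMem hz _

lemma ft_sum {n : ℕ} {g : E n → ℂ} (hg : Measurable g) (hs : ∀ z, z ∉ cube n → g z = 0) (hi : Integrable g)
    {lam : ℝ} (hl : 0 < lam) (s : Fin n → ℝ) (x : E n) :
    ‖𝓕 (ch s g) x‖ₑ ≤ ∑' k, ‖𝓕 (ch s (pc g lam k)) x‖ₑ := by
  have hF : Integrable (fun v : E n => Real.fourierChar (-⟪v, x⟫) • ch s g v) := by
    have h1 : Integrable (ch s g) := by
      refine hi.mono ?_ (ae_of_all _ fun z => by rw [ch_norm])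
      unfold ch
      exact ((by fun_prop : Measurable fun z : E n =>
        cexp (((-(2 * Real.pi * ∑ j, s j * z j ^ 2) : ℝ) : ℂ) * I)).mul hg).aestronglyMeasurable
    exact (Real.fourierIntegral_convergent_iff (f := ch s g) (μ := (volume : Measure (E n))) x).2 h1
  have e1 : 𝓕 (ch s g) x = ∑' k, 𝓕 (ch s (pc g lam k)) x := by
    rw [Real.fourier_eq]
    have e2 : ∫ v, Real.fourierChar (-⟪v, x⟫) • ch s g v =
        ∫ v in ⋃ k, Lv g lam k, Real.fourierChar (-⟪v, x⟫) • ch s g v := by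
      rw [Lv_union g hl, ← integral_indicator (cube_meas n)]
      congr 1
      ext v
      by_cases hv : v ∈ cube n
      · rw [indicator_of_mem hv]
      · rw [indicator_of_notMem hv]
        unfold ch
        rw [hs v hv, mul_zero, smul_zero]
    rw [e2, integral_iUnion (fun k => Lv_meas hg lam k) (Lv_disj g hl) hF.integrableOn]
    congr 1
    ext k
    rw [Real.fourier_eq, ← integral_indicator (Lv_meas hg lam k)]
    congr 1
    ext v
    unfold pc ch
    by_cases hv : v ∈ Lv g lam k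
    · rw [indicator_of_mem hv, indicator_of_mem hv]
    · rw [indicator_of_notMem hv, indicator_of_notMem hv, mul_zero, smul_zero]
  rw [e1]
  exact enorm_tsum_le_tsum_enorm

/-- the main estimate for all functions -/
theorem strong (m : ℕ) (α q : ℝ) (hα : 0 < α) (hq : 2 + 2 / (1 + α) < q)
    (L A : ℝ) (hL : 1 ≤ L) (hA : 0 ≤ A) :
    ∃ C : ℝ≥0∞, C < ⊤ ∧ ∀ μ : Measure (Fin m → ℝ), Frost μ A α →
      ∀ g : E (m + 1) → ℂ, Measurable g → (∀ z, z ∉ cube (m + 1) → g z = 0) → ∫⁻ z, ‖g z‖ₑ ^ q ≠ ⊤ →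
        II μ L q univ g ≤ C * ∫⁻ z, ‖g z‖ₑ ^ q := by
  obtain ⟨κ, hκ, C, hC, hmain⟩ := rt_all m α q hα hq L A hL hA
  have hq2 : 2 < q := by
    have : 0 < 2 / (1 + α) := by positivity
    linarith
  have hq0 : 0 < q := by linarith
  have hq1 : 1 < q := by linarith
  obtain ⟨ε, hε⟩ : ∃ ε : ℝ, ε = q * κ / 2 / (q - 1) := ⟨_, rfl⟩
  have hε0 : 0 < ε := by
    rw [hε]
    have : 0 < q - 1 := by linarith
    positivity
  have hεq : ε * (q - 1) = q * κ / 2 := by
    rw [hε, div_mul_cancel₀]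
    linarith
  set V : ℝ≥0∞ := max (volume (cube (m + 1))) 1 with hV
  have hVf : V < ⊤ := max_lt (cube_vol _) ENNReal.one_lt_top
  obtain ⟨c, hc⟩ : ∃ c : ℕ → ℝ≥0∞, c = fun k : ℕ => ENNReal.ofReal ((2 : ℝ) ^ (-(ε * k))) := ⟨_, rfl⟩
  have hc0 : ∀ k, c k ≠ 0 := by
    intro k
    rw [hc]
    exact (ENNReal.ofReal_pos.2 (by positivity)).ne'
  have hc1 : ∀ k, c k ≠ ∞ := by
    intro k
    rw [hc]
    exact ENNReal.ofReal_ne_top
  obtain ⟨x, hx⟩ : ∃ x : ℝ≥0∞, x = ENNReal.ofReal ((2 : ℝ) ^ (-ε)) := ⟨_, rfl⟩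
  have hx1 : x < 1 := by
    rw [hx, ENNReal.ofReal_lt_one]
    exact Real.rpow_lt_one_of_one_lt_of_neg (by norm_num) (by linarith)
  have hcs : ∑' k, c k = (1 - x)⁻¹ := by
    rw [← ENNReal.tsum_geometric]
    congr 1
    ext k
    rw [hc, hx, ← ENNReal.ofReal_pow (by positivity), ← Real.rpow_natCast, ← Real.rpow_mul (by norm_num)]
    congr 2
    ring
  obtain ⟨y, hy⟩ : ∃ y : ℝ≥0∞, y = ENNReal.ofReal ((2 : ℝ) ^ (-(q * κ / 2))) := ⟨_, rfl⟩
  have hy1 : y < 1 := by
    rw [hy, ENNReal.ofReal_lt_one]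
    refine Real.rpow_lt_one_of_one_lt_of_neg (by norm_num) ?_
    have : 0 < q * κ / 2 := by positivity
    linarith
  have hinv : ∀ z : ℝ≥0∞, z < 1 → (1 - z)⁻¹ < ⊤ := by
    intro z hz
    rw [ENNReal.inv_lt_top]
    exact tsub_pos_of_lt hz
  refine ⟨(1 - x)⁻¹ ^ (q - 1) * (C * V ^ (1 + κ) * ENNReal.ofReal ((2 : ℝ) ^ q) * (1 - y)⁻¹), ?_, ?_⟩
  · refine ENNReal.mul_lt_top (ENNReal.rpow_lt_top_of_nonneg (by linarith) (hinv x hx1).ne) ?_
    refine ENNReal.mul_lt_top (ENNReal.mul_lt_top (ENNReal.mul_lt_top hC ?_) ENNReal.ofReal_lt_top) (hinv y hy1)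
    exact ENNReal.rpow_lt_top_of_nonneg (by linarith) hVf.ne
  intro μ hμ g hg hs hN
  have := hμ.locfin
  obtain ⟨N, hNd⟩ : ∃ N : ℝ≥0∞, N = ∫⁻ z, ‖g z‖ₑ ^ q := ⟨_, rfl⟩
  rw [← hNd] at hN ⊢
  by_cases hN0 : N = 0
  · -- g vanishes almost everywhere
    rw [hN0] at hNd
    have h1 := (lintegral_eq_zero_iff (hg.enorm.pow_const q)).1 hNd.symm
    have h2 : ∀ᵐ z : E (m + 1), g z = 0 := by
      filter_upwards [h1] with z hz
      simp only [Pi.zero_apply, ENNReal.rpow_eq_zero_iff] at hz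
      rcases hz with h | h
      · exact enorm_eq_zero.1 h.1
      · linarith [h.2]
    have h3 : ∀ (s : Fin (m + 1) → ℝ) (x : E (m + 1)), 𝓕 (ch s g) x = 0 := by
      intro s x
      rw [Real.fourier_eq]
      apply integral_eq_zero_of_ae
      filter_upwards [h2] with z hz
      unfold ch
      rw [hz, mul_zero, smul_zero]
      rfl
    have h4 : II μ L q univ g = 0 := by
      unfold II
      simp [h3, ENNReal.zero_rpow_of_pos hq0]
    rw [h4]
    exact zero_le
  -- the level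
  obtain ⟨lam, hlam⟩ : ∃ lam : ℝ, lam = (N ^ (1 / q)).toReal := ⟨_, rfl⟩
  have hNq : N ^ (1 / q) ≠ ⊤ := (ENNReal.rpow_lt_top_of_nonneg (by positivity) hN).ne
  have hNq0 : N ^ (1 / q) ≠ 0 := by
    rw [Ne, ENNReal.rpow_eq_zero_iff]
    push Not
    exact ⟨fun h => absurd h hN0, fun h => absurd h hN⟩
  have hl : 0 < lam := by
    rw [hlam]
    exact ENNReal.toReal_pos hNq0 hNq
  have hlq : ENNReal.ofReal lam ^ q = N := by
    rw [hlam, ENNReal.ofReal_toReal hNq, ← ENNReal.rpow_mul]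
    have : 1 / q * q = 1 := by field_simp
    rw [this, ENNReal.rpow_one]
  -- integrability
  have hi : Integrable g := by
    have h1 : MemLp g (ENNReal.ofReal q) (volume.restrict (cube (m + 1))) := by
      refine ⟨hg.aestronglyMeasurable, ?_⟩
      rw [eLpNorm_lt_top_iff_lintegral_rpow_enorm_lt_top (by simpa using hq0) ENNReal.ofReal_ne_top,
        ENNReal.toReal_ofReal hq0.le]
      refine (setLIntegral_le_lintegral _ _).trans_lt ?_
      rw [← hNd]
      exact lt_top_iff_ne_top.2 hN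
    have hfm : IsFiniteMeasure (volume.restrict (cube (m + 1))) :=
      ⟨by rw [Measure.restrict_apply_univ]; exact cube_vol _⟩
    have h2 : IntegrableOn g (cube (m + 1)) := h1.integrable (by
      rw [← ENNReal.ofReal_one]
      exact ENNReal.ofReal_le_ofReal hq1.le)
    rw [← integrable_indicator_iff (cube_meas _)] at h2
    refine h2.congr (ae_of_all _ fun z => ?_)
    by_cases hz : z ∈ cube (m + 1)
    · rw [indicator_of_mem hz]
    · rw [indicator_of_notMem hz, hs z hz]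
  -- volumes
  have hvol : ∀ k : ℕ, volume (Lv g lam k) ≤ V * ENNReal.ofReal ((2 : ℝ) ^ (-(q * k))) := by
    intro k
    rcases Nat.eq_zero_or_pos k with hk | hk
    · rw [hk]
      have : (2 : ℝ) ^ (-(q * ((0 : ℕ) : ℝ))) = 1 := by simp
      rw [this, ENNReal.ofReal_one, mul_one]
      exact (measure_mono (Lv_sub g lam 0)).trans (le_max_left _ _)
    · have h1 : ENNReal.ofReal (lam * 2 ^ k) ^ q * volume (Lv g lam k) ≤ N := by
        rw [hNd]
        have h2 := mul_meas_ge_le_lintegral₀ (μ := (volume : Measure (E (m + 1)))) (hg.enorm.pow_const q).aemeasurable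
          (ENNReal.ofReal (lam * 2 ^ k) ^ q)
        refine le_trans (mul_le_mul' le_rfl (measure_mono ?_)) h2
        intro z hz
        have h3 : lam * 2 ^ k ≤ ‖g z‖ := by
          rcases hz.2.1 with h | h
          · omega
          · exact h
        show ENNReal.ofReal (lam * 2 ^ k) ^ q ≤ ‖g z‖ₑ ^ q
        apply ENNReal.rpow_le_rpow _ hq0.le
        rw [← ofReal_norm]
        exact ENNReal.ofReal_le_ofReal h3
      have h4 : ENNReal.ofReal (lam * 2 ^ k) ^ q = N * ENNReal.ofReal ((2 : ℝ) ^ (q * k)) := by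
        rw [ENNReal.ofReal_mul hl.le, ENNReal.mul_rpow_of_nonneg _ _ hq0.le, hlq]
        congr 1
        rw [ENNReal.ofReal_rpow_of_pos (by positivity), ← Real.rpow_natCast, ← Real.rpow_mul (by norm_num)]
        congr 2
        ring
      rw [h4, mul_assoc] at h1
      have h5 : ENNReal.ofReal ((2 : ℝ) ^ (q * k)) * volume (Lv g lam k) ≤ 1 := by
        by_contra hcon
        push Not at hcon
        have h6 : N * 1 < N * (ENNReal.ofReal ((2 : ℝ) ^ (q * k)) * volume (Lv g lam k)) :=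
          (ENNReal.mul_lt_mul_iff_right hN0 hN).2 hcon
        rw [mul_one] at h6
        exact absurd h1 (not_le.2 h6)
      calc volume (Lv g lam k) = ENNReal.ofReal ((2 : ℝ) ^ (-(q * k))) * (ENNReal.ofReal ((2 : ℝ) ^ (q * k)) * volume (Lv g lam k)) := by
            rw [← mul_assoc, ← ENNReal.ofReal_mul (by positivity), ← Real.rpow_add (by norm_num), neg_add_cancel,
              Real.rpow_zero, ENNReal.ofReal_one, one_mul]
        _ ≤ ENNReal.ofReal ((2 : ℝ) ^ (-(q * k))) * 1 := mul_le_mul' le_rfl h5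
        _ = 1 * ENNReal.ofReal ((2 : ℝ) ^ (-(q * k))) := by rw [mul_one, one_mul]
        _ ≤ _ := mul_le_mul' (le_max_right _ _) le_rfl
  -- the terms
  have hterm : ∀ k : ℕ, c k ^ (1 - q) * II μ L q univ (pc g lam k) ≤
      C * V ^ (1 + κ) * ENNReal.ofReal ((2 : ℝ) ^ q) * N * y ^ k := by
    intro k
    have h1 := hmain μ hμ _ _ _ (pc_bt hg hl k) (Lv_sub g lam k)
    have h2 : volume (Lv g lam k) ^ (1 + κ) ≤ V ^ (1 + κ) * ENNReal.ofReal ((2 : ℝ) ^ (-(q * k) * (1 + κ))) := by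
      refine (ENNReal.rpow_le_rpow (hvol k) (by linarith)).trans (le_of_eq ?_)
      rw [ENNReal.mul_rpow_of_nonneg _ _ (by linarith), ENNReal.ofReal_rpow_of_pos (by positivity), ← Real.rpow_mul (by norm_num)]
    have h3 : ENNReal.ofReal (lam * 2 ^ (k + 1)) ^ q = N * ENNReal.ofReal ((2 : ℝ) ^ (q * (k + 1))) := by
      rw [ENNReal.ofReal_mul hl.le, ENNReal.mul_rpow_of_nonneg _ _ hq0.le, hlq]
      congr 1
      rw [ENNReal.ofReal_rpow_of_pos (by positivity), ← Real.rpow_natCast, ← Real.rpow_mul (by norm_num)]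
      congr 2
      push_cast
      ring
    have h4 : c k ^ (1 - q) = ENNReal.ofReal ((2 : ℝ) ^ (-(ε * k) * (1 - q))) := by
      rw [hc]
      dsimp only
      rw [ENNReal.ofReal_rpow_of_pos (by positivity), ← Real.rpow_mul (by norm_num)]
    have h5 : y ^ k = ENNReal.ofReal ((2 : ℝ) ^ (-(q * κ / 2) * k)) := by
      rw [hy, ← ENNReal.ofReal_pow (by positivity), ← Real.rpow_natCast, ← Real.rpow_mul (by norm_num)]
    rw [h4, h5]
    calc ENNReal.ofReal ((2 : ℝ) ^ (-(ε * k) * (1 - q))) * II μ L q univ (pc g lam k)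
        ≤ ENNReal.ofReal ((2 : ℝ) ^ (-(ε * k) * (1 - q))) * (C * ((V ^ (1 + κ) * ENNReal.ofReal ((2 : ℝ) ^ (-(q * k) * (1 + κ)))) *
            (N * ENNReal.ofReal ((2 : ℝ) ^ (q * (k + 1)))))) := by
          refine mul_le_mul' le_rfl (h1.trans (mul_le_mul' le_rfl ?_))
          rw [h3]
          exact mul_le_mul' h2 le_rfl
      _ = C * V ^ (1 + κ) * N * (ENNReal.ofReal ((2 : ℝ) ^ (-(ε * k) * (1 - q))) *
            (ENNReal.ofReal ((2 : ℝ) ^ (-(q * k) * (1 + κ))) * ENNReal.ofReal ((2 : ℝ) ^ (q * (k + 1))))) := by ring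
      _ = C * V ^ (1 + κ) * N * (ENNReal.ofReal ((2 : ℝ) ^ q) * ENNReal.ofReal ((2 : ℝ) ^ (-(q * κ / 2) * k))) := by
          congr 1
          rw [← ENNReal.ofReal_mul (by positivity), ← ENNReal.ofReal_mul (by positivity), ← ENNReal.ofReal_mul (by positivity),
            ← Real.rpow_add (by norm_num), ← Real.rpow_add (by norm_num), ← Real.rpow_add (by norm_num)]
          congr 2
          have : -(ε * k) * (1 - q) = (ε * (q - 1)) * k := by ring
          rw [this, hεq]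
          ring
      _ = _ := by ring
  -- the sum
  have hpm : ∀ k, Measurable (pc g lam k) := fun k => (pc_bt hg hl k).bs.meas
  rw [II_prod μ L q univ hg]
  calc ∫⁻ w, ‖𝓕 (ch (sv w.1) g) w.2‖ₑ ^ q
        ∂(((volume.restrict univ).prod (μ.restrict (Icc (fun _ => -L) (fun _ => L)))).prod (volume : Measure (E (m + 1))))
      ≤ ∫⁻ w, (∑' k, c k) ^ (q - 1) * ∑' k, c k ^ (1 - q) * ‖𝓕 (ch (sv w.1) (pc g lam k)) w.2‖ₑ ^ q
        ∂(((volume.restrict univ).prod (μ.restrict (Icc (fun _ => -L) (fun _ => L)))).prod (volume : Measure (E (m + 1)))) := by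
        apply lintegral_mono
        intro w
        exact (ENNReal.rpow_le_rpow (ft_sum hg hs hi hl (sv w.1) w.2) hq0.le).trans (jensen_tsum q hq1 _ c hc0 hc1)
    _ = (∑' k, c k) ^ (q - 1) * ∑' k, c k ^ (1 - q) * II μ L q univ (pc g lam k) := by
        have hmk : ∀ k, Measurable fun w : (ℝ × (Fin m → ℝ)) × E (m + 1) =>
            c k ^ (1 - q) * ‖𝓕 (ch (sv w.1) (pc g lam k)) w.2‖ₑ ^ q := fun k =>
          ((meas_Fch (m := m) (hpm k)).enorm.pow_const q).const_mul _
        rw [lintegral_const_mul _ (Measurable.ennreal_tsum hmk), lintegral_tsum (fun k => (hmk k).aemeasurable)]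
        congr 2
        ext k
        rw [lintegral_const_mul _ ((meas_Fch (m := m) (hpm k)).enorm.pow_const q), II_prod μ L q univ (hpm k)]
    _ ≤ (∑' k, c k) ^ (q - 1) * ∑' k, C * V ^ (1 + κ) * ENNReal.ofReal ((2 : ℝ) ^ q) * N * y ^ k :=
        mul_le_mul' le_rfl (ENNReal.tsum_le_tsum hterm)
    _ = _ := by
        rw [hcs, ENNReal.tsum_mul_left, ENNReal.tsum_geometric]
        ring

end Pool.Agent.P8H20.LQ
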