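import Mathlib
import Pool.Agent.P8H20.LQ.C
set_option autoImplicit false

/-!
Averages of extension operators over dilates: the paraboloid in the space.
-/

namespace Pool.Agent.P8H20.LQ

open Complex MeasureTheory Set
open scoped ENNReal FourierTransform ComplexConjugate RealInnerProductSpace
open Pool.Agent.H153R4

/-- the surface `x_3 = x_1 ^ 2 + lam * x_2 ^ 2` -/
noncomputable def Ps (lam : ℝ) (x : E 2) : E 3 := !₂[x 0, x 1, x 0 ^ 2 + lam * x 1 ^ 2]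

/-- extension over the plane -/
noncomputable def ew (lam : ℝ) (H : E 2 → ℂ) (ξ : E 3) : ℂ := ∫ x, cexp (-((⟪Ps lam x, ξ⟫ : ℝ) : ℂ) * I) * H x

/-- the point of the space with the coordinates `y` -/
noncomputable def pt (y : (Fin 2 → ℝ) × ℝ) : E 3 :=
  !₂[-(2 * Real.pi) * y.1 0, -(2 * Real.pi) * y.1 1, -(2 * Real.pi) * y.2]

lemma inner_Ps (lam : ℝ) (x : E 2) (ξ : E 3) :
    ⟪Ps lam x, ξ⟫ = x 0 * ξ 0 + x 1 * ξ 1 + (x 0 ^ 2 + lam * x 1 ^ 2) * ξ 2 := by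
  unfold Ps
  rw [PiLp.inner_apply, Fin.sum_univ_three]
  simp
  ring

lemma ext0_conv (lam : ℝ) (g : (Fin 2 → ℝ) → ℂ) (y : (Fin 2 → ℝ) × ℝ) :
    ext0 ![1, lam] g y = ew lam (fun x => g x.ofLp) (pt y) := by
  unfold ext0 ew
  rw [← (PiLp.volume_preserving_ofLp (Fin 2)).integral_comp (emb_ofLp 2)]
  refine integral_congr_ae (ae_of_all _ fun x => ?_)
  show g x.ofLp * cexp (2 * Real.pi * I * (ph ![1, lam] x.ofLp y : ℂ)) = cexp (-((⟪Ps lam x, pt y⟫ : ℝ) : ℂ) * I) * g x.ofLp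
  rw [mul_comm]
  congr 2
  have h : ⟪Ps lam x, pt y⟫ = -(2 * Real.pi) * ph ![1, lam] x.ofLp y := by
    rw [inner_Ps]
    unfold pt ph
    simp [Fin.sum_univ_two]
    ring
  rw [h]
  push_cast
  ring

lemma lint3 (F : E 3 → ℝ≥0∞) (hF : Measurable F) :
    ∫⁻ ξ, F ξ = ENNReal.ofReal ((2 * Real.pi) ^ 3) * ∫⁻ y, F (pt y) := by
  have hpi := Real.pi_pos
  have hr : (-(2 * Real.pi) : ℝ) ≠ 0 := by linarith
  have h1 := Measure.map_addHaar_smul (volume : Measure (E 3)) hr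
  have h2 : ∫⁻ v : E 3, F ((-(2 * Real.pi)) • v) = ENNReal.ofReal |((-(2 * Real.pi)) ^ 3)⁻¹| * ∫⁻ ξ, F ξ := by
    rw [← lintegral_map (μ := (volume : Measure (E 3))) hF (measurable_const_smul (-(2 * Real.pi))), h1,
      lintegral_smul_measure, smul_eq_mul, finrank_euclideanSpace, Fintype.card_fin]
  have h3 : ∫⁻ v : E 3, F ((-(2 * Real.pi)) • v) = ∫⁻ y, F (pt y) := by
    set F' : E 3 → ℝ≥0∞ := fun v => F ((-(2 * Real.pi)) • v) with hF'
    have hF'm : Measurable F' := hF.comp (measurable_const_smul _)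
    have a1 := (PiLp.volume_preserving_toLp (Fin 3)).lintegral_comp_emb
      (MeasurableEquiv.toLp 2 (Fin 3 → ℝ)).measurableEmbedding F'
    have a2 := ((volume_preserving_piFinSuccAbove (fun _ : Fin 3 => ℝ) 2).symm).lintegral_comp_emb
      (MeasurableEquiv.piFinSuccAbove (fun _ : Fin 3 => ℝ) 2).symm.measurableEmbedding (fun x => F' (WithLp.toLp 2 x))
    have a3 := lintegral_prod_swap (μ := (volume : Measure ℝ)) (ν := (volume : Measure (Fin 2 → ℝ)))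
      (fun w : ℝ × (Fin 2 → ℝ) => F' (WithLp.toLp 2 ((MeasurableEquiv.piFinSuccAbove (fun _ : Fin 3 => ℝ) 2).symm w)))
    rw [← a1, ← a2]
    refine Eq.trans a3.symm ?_
    refine lintegral_congr fun y => ?_
    show F ((-(2 * Real.pi)) • (WithLp.toLp 2 ((MeasurableEquiv.piFinSuccAbove (fun _ : Fin 3 => ℝ) 2).symm (y.2, y.1)))) = F (pt y)
    congr 1
    ext j
    fin_cases j <;> simp [pt, MeasurableEquiv.piFinSuccAbove] <;> rfl
  rw [← h3, h2, ← mul_assoc, ← ENNReal.ofReal_mul (by positivity)]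
  have h4 : (2 * Real.pi) ^ 3 * |((-(2 * Real.pi)) ^ 3)⁻¹| = 1 := by
    rw [abs_inv, abs_pow, abs_neg, abs_of_pos (by positivity)]
    field_simp
  rw [h4, ENNReal.ofReal_one, one_mul]

lemma ew_meas (lam : ℝ) {H : E 2 → ℂ} (hH : Measurable H) : Measurable (ew lam H) := by
  unfold ew
  have h1 : Measurable fun r : E 3 × E 2 => cexp (-((⟪Ps lam r.2, r.1⟫ : ℝ) : ℂ) * I) * H r.2 := by
    simp only [inner_Ps]
    have h2 : Measurable fun r : E 3 × E 2 => cexp (-(((r.2 0 * r.1 0 + r.2 1 * r.1 1 + (r.2 0 ^ 2 + lam * r.2 1 ^ 2) * r.1 2 : ℝ)) : ℂ) * I) := by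
      fun_prop
    exact h2.mul (hH.comp measurable_snd)
  exact (h1.stronglyMeasurable.integral_prod_right').measurable

lemma key1 (lam l q : ℝ) (hl : 1 ≤ l) (hq : 1 ≤ q) {G : E 2 → ℂ} (hG : Measurable G) :
    ∫⁻ ξ : E 3, ‖ew lam (fun x => G !₂[x 0, l * x 1]) ξ‖ₑ ^ q ≤
      ENNReal.ofReal ((2 * Real.pi) ^ 3) * FF (m := 1) q G (fun _ => lam / l ^ 2) := by
  have hl2 : Measurable fun x : E 2 => (!₂[x 0, l * x 1] : E 2) := by
    apply (PiLp.volume_preserving_toLp (Fin 2)).measurable.comp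
    rw [measurable_pi_iff]
    intro j
    fin_cases j
    · simp; fun_prop
    · simp; fun_prop
  have hH : Measurable fun x : E 2 => G !₂[x 0, l * x 1] := hG.comp hl2
  rw [lint3 _ ((ew_meas lam hH).enorm.pow_const q)]
  refine mul_le_mul' le_rfl ?_
  have hg : Measurable fun z : Fin 2 → ℝ => G (WithLp.toLp 2 z) :=
    hG.comp (PiLp.volume_preserving_toLp (Fin 2)).measurable
  have hk := key_le (m := 1) ![1, lam] (by simp) q hq (fun _ => l) (fun _ => hl) hg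
  have e1 : ∀ y : (Fin 2 → ℝ) × ℝ, ‖ext0 ![1, lam] (fun ξ => (fun z : Fin 2 → ℝ => G (WithLp.toLp 2 z)) (dv (fun _ : Fin 1 => l) * ξ)) y‖ₑ ^ q =
      ‖ew lam (fun x => G !₂[x 0, l * x 1]) (pt y)‖ₑ ^ q := by
    intro y
    rw [ext0_conv]
    congr 3
    funext x
    show G (WithLp.toLp 2 (dv (fun _ : Fin 1 => l) * x.ofLp)) = G !₂[x 0, l * x 1]
    congr 1
    ext j
    fin_cases j
    · simp [dv, Fin.cons]
    · simp [dv, Fin.cons]
      exact Or.inl rfl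
  have e2 : ∫⁻ y, ‖ext0 ![1, lam] (fun ξ => (fun z : Fin 2 → ℝ => G (WithLp.toLp 2 z)) (dv (fun _ : Fin 1 => l) * ξ)) y‖ₑ ^ q =
      ∫⁻ y, ‖ew lam (fun x => G !₂[x 0, l * x 1]) (pt y)‖ₑ ^ q := lintegral_congr e1
  rw [← e2]
  refine hk.trans (le_of_eq ?_)
  have e3 : ENNReal.ofReal |((![1, lam] : Fin 2 → ℝ) 0)⁻¹| = 1 := by simp
  have e4 : rho (fun j : Fin 1 => (![1, lam] : Fin 2 → ℝ) j.succ / (![1, lam] : Fin 2 → ℝ) 0) (fun _ => l) = fun _ => lam / l ^ 2 := by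
    funext j
    unfold rho
    fin_cases j
    simp
  rw [e4]
  have e5 := e3
  calc ENNReal.ofReal |((![1, lam] : Fin 2 → ℝ) 0)⁻¹| * FF (m := 1) q (fun z : E 2 => G (WithLp.toLp 2 z.ofLp)) (fun _ => lam / l ^ 2)
      = 1 * FF (m := 1) q (fun z : E 2 => G (WithLp.toLp 2 z.ofLp)) (fun _ => lam / l ^ 2) := by rw [e5]
    _ = _ := by rw [one_mul]

lemma dil_qmp (l : ℝ) (hl : 1 ≤ l) :
    Measure.QuasiMeasurePreserving (fun x : E 2 => (!₂[x 0, l * x 1] : E 2)) volume volume := by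
  have hd : ∀ j, 1 ≤ dv (fun _ : Fin 1 => l) j := by
    intro j
    refine Fin.cases ?_ (fun i => ?_) j
    · simp [dv]
    · simpa [dv] using hl
  obtain ⟨κ, hκ0, hκ1, hκ⟩ := dil_map (dv (fun _ : Fin 1 => l)) hd
  have hq : Measure.QuasiMeasurePreserving (fun ξ : Fin 2 → ℝ => dv (fun _ : Fin 1 => l) * ξ) volume volume := by
    refine ⟨by fun_prop, ?_⟩
    rw [hκ]
    exact Measure.smul_absolutelyContinuous
  have h := ((PiLp.volume_preserving_toLp (Fin 2)).quasiMeasurePreserving.comp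
    (hq.comp (PiLp.volume_preserving_ofLp (Fin 2)).quasiMeasurePreserving))
  have e : (fun x : E 2 => (!₂[x 0, l * x 1] : E 2)) =
      (WithLp.toLp 2 ∘ ((fun ξ : Fin 2 → ℝ => dv (fun _ : Fin 1 => l) * ξ) ∘ WithLp.ofLp)) := by
    funext x
    show (!₂[x 0, l * x 1] : E 2) = WithLp.toLp 2 (dv (fun _ : Fin 1 => l) * x.ofLp)
    ext j
    fin_cases j
    · simp [dv, Fin.cons]
    · simp [dv, Fin.cons]
      exact Or.inl rfl
  rw [e]
  exact h

/-- the power of the norm as an average -/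
lemma avg (ν : Measure (Fin 1 → ℝ)) [SFinite ν] (K q : ℝ) {G : E 2 → ℂ} (hG : Measurable G) :
    ∫⁻ x in Icc (fun _ => -K) (fun _ => K), FF (m := 1) q G x ∂ν = II (m := 1) ν K q univ G := by
  have hGm : Measurable fun p : (Fin 1 → ℝ) × ℝ =>
      ∫⁻ x, ‖𝓕 (ch (sv (p.2, p.1)) G) x‖ₑ ^ q := (G_meas (m := 1) q hG).comp measurable_swap
  rw [II_eq (m := 1) ν K q univ hG, Measure.restrict_univ]
  unfold FF HH
  rw [lintegral_lintegral_swap]
  exact hGm.aemeasurable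

lemma FF_meas (q : ℝ) {G : E 2 → ℂ} (hG : Measurable G) : Measurable (FF (m := 1) q G) := by
  have hGm : Measurable fun p : (Fin 1 → ℝ) × ℝ =>
      ∫⁻ x, ‖𝓕 (ch (sv (p.2, p.1)) G) x‖ₑ ^ q := (G_meas (m := 1) q hG).comp measurable_swap
  exact hGm.lintegral_prod_right'

/-- measures on the line of dimension `α` -/
def Dm (A α : ℝ) (μ : Measure ℝ) : Prop :=
  ∀ a r : ℝ, 0 < r → r ≤ 1 → μ (Icc a (a + r)) ≤ ENNReal.ofReal (A * r ^ α)

/-- the embedding of the parameters -/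
def em (a : ℝ) : Fin 1 → ℝ := fun _ => a

lemma em_meas : Measurable em := by
  unfold em
  fun_prop

lemma em_pre (a b : ℝ) : em ⁻¹' Icc (fun _ => a) (fun _ => b) = Icc a b := by
  ext x
  simp [em, Pi.le_def]

lemma em_frost {A α : ℝ} {μ : Measure ℝ} (h : Dm A α μ) : Frost (μ.map em) A α := by
  intro a r h0 h1
  rw [Measure.map_apply em_meas measurableSet_Icc]
  have e : em ⁻¹' Icc a (fun j => a j + r) = Icc (a 0) (a 0 + r) := by
    ext x
    simp [em, Pi.le_def]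
  rw [e]
  exact h (a 0) r h0 h1

/-- averages over surfaces -/
theorem surf (α q L A : ℝ) (hα : 0 < α) (hq : 2 + 2 / (1 + α) < q) (hL : 1 ≤ L) (hA : 0 ≤ A) :
    ∃ C : ℝ≥0∞, C < ⊤ ∧ ∀ μ : Measure ℝ, Dm A α μ →
      ∀ G : E 2 → ℂ, Measurable G → (∀ z, z ∉ cube 2 → G z = 0) → ∫⁻ z, ‖G z‖ₑ ^ q ≠ ⊤ →
        ∫⁻ b in Icc (-L) L, (∫⁻ ξ : E 3, ‖ew b G ξ‖ₑ ^ q) ∂μ ≤ C * ∫⁻ z, ‖G z‖ₑ ^ q := by
  obtain ⟨C, hC, h⟩ := strong 1 α q hα hq L A hL hA
  have hq1 : 1 ≤ q := by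
    have : 0 < 2 / (1 + α) := by positivity
    linarith
  refine ⟨ENNReal.ofReal ((2 * Real.pi) ^ 3) * C, ENNReal.mul_lt_top ENNReal.ofReal_lt_top hC, fun μ hμ G hG hs hN => ?_⟩
  have hF := em_frost hμ
  have := hF.locfin
  have h1 := h _ hF G hG hs hN
  rw [← avg _ L q hG] at h1
  have h2 : ∫⁻ x in Icc (fun _ => -L) (fun _ => L), FF (m := 1) q G x ∂(μ.map em) =
      ∫⁻ b in Icc (-L) L, FF (m := 1) q G (em b) ∂μ := by
    rw [setLIntegral_map measurableSet_Icc (FF_meas q hG) em_meas, em_pre]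
  rw [h2] at h1
  calc ∫⁻ b in Icc (-L) L, (∫⁻ ξ : E 3, ‖ew b G ξ‖ₑ ^ q) ∂μ
      ≤ ∫⁻ b in Icc (-L) L, ENNReal.ofReal ((2 * Real.pi) ^ 3) * FF (m := 1) q G (em b) ∂μ := by
        apply lintegral_mono
        intro b
        have h3 := key1 b 1 q le_rfl hq1 hG
        have e1 : (fun x : E 2 => G !₂[x 0, 1 * x 1]) = G := by
          funext x
          congr 1
          ext j
          fin_cases j <;> simp
        have e2 : (fun _ : Fin 1 => b / (1 : ℝ) ^ 2) = em b := by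
          funext j
          unfold em
          simp
        rw [e1, e2] at h3
        exact h3
    _ = ENNReal.ofReal ((2 * Real.pi) ^ 3) * ∫⁻ b in Icc (-L) L, FF (m := 1) q G (em b) ∂μ := by
        rw [lintegral_const_mul' _ _ ENNReal.ofReal_ne_top]
    _ ≤ ENNReal.ofReal ((2 * Real.pi) ^ 3) * (C * ∫⁻ z, ‖G z‖ₑ ^ q) := mul_le_mul' le_rfl h1
    _ = _ := by ring

/-- averages over dilates -/
theorem dils (α q L A : ℝ) (hα : 0 < α) (hq : 2 + 2 / (1 + α) < q) (hL : 1 ≤ L) (hA : 0 ≤ A) :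
    ∃ C : ℝ≥0∞, C < ⊤ ∧ ∀ μ : Measure ℝ, Dm A α μ →
      ∀ G : E 2 → ℂ, Measurable G → (∀ z, z ∉ cube 2 → G z = 0) → ∫⁻ z, ‖G z‖ₑ ^ q ≠ ⊤ →
        ∫⁻ l in Icc 1 L, (∫⁻ ξ : E 3, ‖ew 1 (fun x => G !₂[x 0, l * x 1]) ξ‖ₑ ^ q) ∂μ ≤ C * ∫⁻ z, ‖G z‖ₑ ^ q := by
  have hq1 : 1 ≤ q := by
    have : 0 < 2 / (1 + α) := by positivity
    linarith
  set b : Fin 1 → ℝ := fun _ => 1 with hb
  have hb0 : ∀ j, b j ≠ 0 := fun j => one_ne_zero
  have hBj : ∀ j, |b j|⁻¹ ≤ 1 := fun j => by simp [hb]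
  obtain ⟨C, hC, h⟩ := strong 1 α q hα hq 1 ((⌊2 * (1 * L ^ 4)⌋₊ + 1 : ℝ) ^ 1 * A) le_rfl (by positivity)
  refine ⟨ENNReal.ofReal ((2 * Real.pi) ^ 3) * C, ENNReal.mul_lt_top ENNReal.ofReal_lt_top hC, fun μ hμ G hG hs hN => ?_⟩
  have hF := em_frost hμ
  have := hF.locfin
  have hνF : Frost (Measure.map (rho b) ((μ.map em).restrict (Icc (fun _ => 1) (fun _ => L))))
      ((⌊2 * (1 * L ^ 4)⌋₊ + 1 : ℝ) ^ 1 * A) α := hF.push L 1 hL b hb0 hBj
  have hνl := hνF.locfin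
  have h1 := h _ hνF G hG hs hN
  rw [← avg _ 1 q hG] at h1
  have hFm := FF_meas q hG
  have hind : Measurable ((Icc (fun _ : Fin 1 => (-1 : ℝ)) (fun _ => 1)).indicator (FF (m := 1) q G)) := hFm.indicator measurableSet_Icc
  have h2 : ∫⁻ x in Icc (fun _ => -1) (fun _ => 1), FF (m := 1) q G x
        ∂(Measure.map (rho b) ((μ.map em).restrict (Icc (fun _ => 1) (fun _ => L)))) =
      ∫⁻ l in Icc 1 L, (Icc (fun _ : Fin 1 => (-1 : ℝ)) (fun _ => 1)).indicator (FF (m := 1) q G) (rho b (em l)) ∂μ := by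
    rw [← lintegral_indicator measurableSet_Icc, lintegral_map hind (rho_meas b)]
    have e6 := setLIntegral_map (μ := μ) (s := Icc (fun _ : Fin 1 => (1 : ℝ)) (fun _ => L)) measurableSet_Icc
      (hind.comp (rho_meas b)) em_meas
    rw [em_pre] at e6
    exact e6
  rw [h2] at h1
  calc ∫⁻ l in Icc 1 L, (∫⁻ ξ : E 3, ‖ew 1 (fun x => G !₂[x 0, l * x 1]) ξ‖ₑ ^ q) ∂μ
      ≤ ∫⁻ l in Icc 1 L, ENNReal.ofReal ((2 * Real.pi) ^ 3) *
          (Icc (fun _ : Fin 1 => (-1 : ℝ)) (fun _ => 1)).indicator (FF (m := 1) q G) (rho b (em l)) ∂μ := by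
        apply setLIntegral_mono' measurableSet_Icc
        intro l hl
        have h3 := key1 1 l q hl.1 hq1 hG
        have hmem : rho b (em l) ∈ Icc (fun _ : Fin 1 => (-1 : ℝ)) (fun _ => 1) := by
          have h4 : ∀ j, 0 ≤ rho b (em l) j ∧ rho b (em l) j ≤ 1 := by
            intro j
            unfold rho em
            simp only [hb]
            have h5 : 1 ≤ l ^ 2 := one_le_pow₀ hl.1
            exact ⟨by positivity, (div_le_one (by linarith)).2 h5⟩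
          exact ⟨fun j => by linarith [(h4 j).1], fun j => (h4 j).2⟩
        rw [indicator_of_mem hmem]
        exact h3
    _ = ENNReal.ofReal ((2 * Real.pi) ^ 3) * ∫⁻ l in Icc 1 L,
          (Icc (fun _ : Fin 1 => (-1 : ℝ)) (fun _ => 1)).indicator (FF (m := 1) q G) (rho b (em l)) ∂μ := by
        rw [lintegral_const_mul' _ _ ENNReal.ofReal_ne_top]
    _ ≤ ENNReal.ofReal ((2 * Real.pi) ^ 3) * (C * ∫⁻ z, ‖G z‖ₑ ^ q) := mul_le_mul' le_rfl h1
    _ = _ := by ring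

end Pool.Agent.P8H20.LQ
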